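import Pool.Agent.H44.GW3

open Pool.Agent.H44.GW

namespace Pool.Agent.Results.MP_f48e0c_pr.FiniteExt

/-- If the set of fixed points is finite, it is the set of extinction probability vectors. -/
theorem result (X : Type) [Countable X] (μ : X → PMF (X →₀ ℕ)) (h : (Fix μ).Finite) :
    Fix μ = Set.range (qExt μ) :=
  Set.Subset.antisymm (fun _ hs => ⟨_, (eq_qExt h hs).symm⟩) (by
    rintro _ ⟨A, rfl⟩
    exact qExt_fix A)

end Pool.Agent.Results.MP_f48e0c_pr.FiniteExt
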